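import Mathlib
import Pool.Agent.Q30.OS.Zeta
import Pool.Agent.Q30.OS.Co2
import Pool.Agent.Q30.OS.Area
import Pool.Agent.H31R2.DH.Assemble
import Pool.Agent.Y757.LL.Zeta
import Pool.Agent.H388LH.ZG

/-!
# Windows with a corner at an arbitrary abscissa
-/

set_option autoImplicit false

open Complex Set MeasureTheory Filter Topology

namespace Pool.Agent.Q30.DH

open Pool.Agent.Q30.OS Pool.Agent.W169.HF

/-- the function in the window with the corner `a + iy` -/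
noncomputable def sF (a y : ℝ) (u : ℂ) : ℂ := zF y (1 * u + ((a - 1 / 2 : ℝ) : ℂ)) * 1

lemma sF_eq (a y : ℝ) (u : ℂ) : sF a y u = zF y (u + ((a - 1 / 2 : ℝ) : ℂ)) := by
  unfold sF
  rw [one_mul, mul_one]

lemma sF_diff (a y : ℝ) : Differentiable ℂ (sF a y) := by
  have : sF a y = fun u => zF y (u + ((a - 1 / 2 : ℝ) : ℂ)) := funext (sF_eq a y)
  rw [this]
  exact (zF_diff y).comp (by fun_prop)

lemma sh_re (a : ℝ) (u : ℂ) : (u + ((a - 1 / 2 : ℝ) : ℂ)).re = u.re + (a - 1 / 2) := by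
  rw [add_re, ofReal_re]

lemma sh_im (a : ℝ) (u : ℂ) : (u + ((a - 1 / 2 : ℝ) : ℂ)).im = u.im := by
  rw [add_im, ofReal_im, add_zero]

lemma pt_sh (a y : ℝ) (u : ℂ) :
    (1 / 2 + (y : ℂ) * I + (u + ((a - 1 / 2 : ℝ) : ℂ)) : ℂ) = (a : ℂ) + (y : ℂ) * I + u := by
  push_cast
  ring

/-- bounds in the window -/
theorem sF_win {κ V : ℝ} (hκ : 0 < κ) (hV : 1 ≤ V) :
    ∃ T0 : ℝ, 4 * V + 8 ≤ T0 ∧ ∀ a y : ℝ, 1 / 4 ≤ a → a ≤ 1 → T0 ≤ y →
      (∀ u : ℂ, -(3 / 4) ≤ u.re → u.re ≤ V → |u.im| ≤ V → ‖sF a y u‖ ≤ Real.exp (5 * Real.log y)) ∧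
      (∀ u : ℂ, 2 ≤ u.re → u.re ≤ V → |u.im| ≤ V →
        Real.exp (-(κ * Real.log y)) ≤ ‖sF a y u‖ ∧ ‖sF a y u‖ ≤ Real.exp (κ * Real.log y)) ∧
      (∀ u : ℂ, -(3 / 4) ≤ u.re → u.re ≤ V → |u.im| ≤ V →
        ‖riemannZeta ((a : ℂ) + (y : ℂ) * I + u)‖ * (1 / 2) ≤ ‖sF a y u‖ ∧
        ‖sF a y u‖ ≤ ‖riemannZeta ((a : ℂ) + (y : ℂ) * I + u)‖ * 2) := by
  obtain ⟨T0, hT0, H⟩ := zF_win (κ := κ) (V := V + 1) hκ (by linarith)
  refine ⟨T0, by linarith, ?_⟩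
  intro a y ha ha1 hy
  have W := H y hy
  have hy0 : 0 < y := by linarith
  refine ⟨?_, ?_, ?_⟩
  · intro u h1 h2 h3
    rw [sF_eq]
    exact W.up _ (by rw [sh_re]; linarith) (by rw [sh_re]; linarith) (by rw [sh_im]; linarith)
  · intro u h1 h2 h3
    rw [sF_eq]
    exact W.lo _ (by rw [sh_re]; linarith) (by rw [sh_re]; linarith) (by rw [sh_im]; linarith)
  · intro u h1 h2 h3
    rw [sF_eq, zF_norm hy0 (by rw [sh_im]; linarith), pt_sh]
    have h4 := rat_bounds (u := u + ((a - 1 / 2 : ℝ) : ℂ)) (V := V + 1) (y := y) (by linarith) (by linarith)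
      (by rw [sh_re]; linarith) (by rw [sh_re]; linarith) (by rw [sh_im]; linarith)
    rw [pt_sh] at h4
    exact ⟨mul_le_mul_of_nonneg_left h4.1 (norm_nonneg _), mul_le_mul_of_nonneg_left h4.2 (norm_nonneg _)⟩

lemma pt_ne {a y : ℝ} {u : ℂ} (h : |u.im| < y) : ((a : ℂ) + (y : ℂ) * I + u : ℂ) ≠ 1 := by
  rw [← pt_sh]
  exact zpt_ne (by rw [sh_im]; exact h)

lemma sF_zero {a y : ℝ} {u : ℂ} (h : |u.im| < y) :
    sF a y u = 0 ↔ riemannZeta ((a : ℂ) + (y : ℂ) * I + u) = 0 := by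
  have hy : 0 < y := lt_of_le_of_lt (abs_nonneg _) h
  rw [sF_eq]
  unfold zF
  rw [pt_sh, mul_eq_zero, Pool.Agent.Y757.LL.zero_iff (pt_ne h)]
  constructor
  · rintro (h | h)
    · exact h
    · exact absurd h (inv_ne_zero (by exact_mod_cast hy.ne'))
  · exact Or.inl

lemma sF_order {a y : ℝ} {u : ℂ} (h : |u.im| < y) :
    analyticOrderNatAt (sF a y) u = analyticOrderNatAt riemannZeta ((a : ℂ) + (y : ℂ) * I + u) := by
  have hy : 0 < y := lt_of_le_of_lt (abs_nonneg _) h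
  have hyc : (y : ℂ)⁻¹ ≠ 0 := inv_ne_zero (by exact_mod_cast hy.ne')
  have e : sF a y = fun u => riemannZeta₁ (1 * u + ((a : ℂ) + (y : ℂ) * I)) * (fun _ : ℂ => (y : ℂ)⁻¹) u := by
    funext w
    rw [sF_eq]
    unfold zF
    rw [pt_sh]
    simp only
    congr 2
    ring
  have hne : ∃ u, riemannZeta₁ u ≠ 0 := by
    refine ⟨2, ?_⟩
    rw [Pool.Agent.H437R2.z1_of_ne (by norm_num)]
    exact mul_ne_zero (by norm_num) (riemannZeta_ne_zero_of_one_le_re (by simp))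
  rw [e, Pool.Agent.W948.HF.ord_tr' differentiable_riemannZeta₁ hne one_ne_zero (by fun_prop)
    (fun _ => hyc) u, one_mul, add_comm u]
  exact Pool.Agent.Y757.LL.order_eq (pt_ne h)

/-- zeros right of `σ` with ordinates in `(x, y]` -/
def ZN (σ x y : ℝ) : Set ℂ := {s : ℂ | riemannZeta s = 0 ∧ σ ≤ s.re ∧ x < s.im ∧ s.im ≤ y}

/-- their number -/
noncomputable def NN (σ x y : ℝ) : ℕ := DH31.cnt (ZN σ x y)

lemma ZN_fin (σ x y : ℝ) : (ZN σ x y).Finite :=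
  (DH31.finite_region σ x y).subset fun _ hs => ⟨hs.1, hs.2.1, hs.2.2.1.le, hs.2.2.2⟩

lemma NN_anti {σ σ' x y : ℝ} (h : σ ≤ σ') : NN σ' x y ≤ NN σ x y :=
  DH31.cnt_mono (ZN_fin _ _ _) fun _ hs => ⟨hs.1, h.trans hs.2.1, hs.2.2⟩

/-- sums over pairwise disjoint windows -/
lemma sum_windows (σ : ℝ) (K : Finset ℕ) (T : ℝ) (hK : ∀ n ∈ K, (n : ℝ) ≤ T) :
    ∑ n ∈ K, NN σ n (n + 1) ≤ NN σ 0 (T + 1) := by
  classical
  unfold NN
  rw [DH31.cnt_eq (ZN_fin σ 0 (T + 1))]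
  have h1 : ∀ n ∈ K, DH31.cnt (ZN σ n (n + 1)) =
      ∑ s ∈ (ZN_fin σ 0 (T + 1)).toFinset.filter (fun s : ℂ => (n : ℝ) < s.im ∧ s.im ≤ (n : ℝ) + 1),
        analyticOrderNatAt riemannZeta s := by
    intro n hn
    rw [DH31.cnt_eq (ZN_fin σ n (n + 1))]
    refine Finset.sum_congr ?_ fun _ _ => rfl
    ext s
    simp only [Set.Finite.mem_toFinset, Finset.mem_filter]
    constructor
    · rintro ⟨a1, a2, a3, a4⟩
      have := hK n hn
      exact ⟨⟨a1, a2, lt_of_le_of_lt (Nat.cast_nonneg n) a3, by linarith⟩, a3, a4⟩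
    · rintro ⟨⟨a1, a2, a3, a4⟩, a5, a6⟩
      exact ⟨a1, a2, a5, a6⟩
  rw [Finset.sum_congr rfl h1, ← Finset.sum_biUnion]
  · exact Finset.sum_le_sum_of_subset (Finset.biUnion_subset.2 fun n _ => Finset.filter_subset _ _)
  · intro m hm n hn hmn
    rw [Function.onFun, Finset.disjoint_left]
    intro s hs1 hs2
    rw [Finset.mem_filter] at hs1 hs2
    apply hmn
    have e1 : (m : ℝ) < n + 1 := lt_of_lt_of_le hs1.2.1 hs2.2.2
    have e2 : (n : ℝ) < m + 1 := lt_of_lt_of_le hs2.2.1 hs1.2.2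
    have e3 : m < n + 1 := by exact_mod_cast e1
    have e4 : n < m + 1 := by exact_mod_cast e2
    omega

end Pool.Agent.Q30.DH
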