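import Mathlib
import Pool.Agent.Q30.DH.Win

/-!
# A large value has many zeros nearby
-/

set_option autoImplicit false

open Complex Set MeasureTheory Filter Topology

namespace Pool.Agent.Q30.DH

open Pool.Agent.Q30.OS Pool.Agent.W169.HF

/-- zeros are distributed over the windows -/
lemma fiber_sum {σ : ℝ} (S : Finset ℂ) (hS : ∀ s ∈ S, riemannZeta s = 0 ∧ σ ≤ s.re) (J : Finset ℕ)
    (hJ : ∀ s ∈ S, ∃ n ∈ J, (n : ℝ) < s.im ∧ s.im ≤ n + 1) :
    ∑ s ∈ S, analyticOrderNatAt riemannZeta s ≤ ∑ n ∈ J, NN σ n (n + 1) := by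
  classical
  choose! f hf using hJ
  rw [← Finset.sum_fiberwise_of_maps_to (t := J) (g := f) fun s hs => (hf s hs).1]
  refine Finset.sum_le_sum fun n _ => ?_
  refine DH31.sum_le_cnt (ZN_fin σ n (n + 1)) _ fun s hs => ?_
  rw [Finset.mem_filter] at hs
  obtain ⟨h1, h2⟩ := hf s hs.1
  rw [hs.2] at h2
  exact ⟨(hS s hs.1).1, (hS s hs.1).2, h2⟩

lemma exists_window {x : ℝ} (hx : 0 < x) : ∃ n : ℕ, (n : ℝ) < x ∧ x ≤ n + 1 := by
  refine ⟨⌈x⌉₊ - 1, ?_, ?_⟩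
  · have h1 : 1 ≤ ⌈x⌉₊ := Nat.one_le_iff_ne_zero.2 (Nat.ceil_pos.2 hx).ne'
    have h2 := Nat.ceil_lt_add_one hx.le
    have h3 : ((⌈x⌉₊ - 1 : ℕ) : ℝ) = (⌈x⌉₊ : ℝ) - 1 := by
      rw [Nat.cast_sub h1, Nat.cast_one]
    rw [h3]
    linarith
  · have h1 : 1 ≤ ⌈x⌉₊ := Nat.one_le_iff_ne_zero.2 (Nat.ceil_pos.2 hx).ne'
    have h2 := Nat.le_ceil x
    have h3 : ((⌈x⌉₊ - 1 : ℕ) : ℝ) = (⌈x⌉₊ : ℝ) - 1 := by
      rw [Nat.cast_sub h1, Nat.cast_one]
    rw [h3]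
    linarith

lemma near_card {t r : ℝ} (hr : 0 ≤ r) (ht : r ≤ t) :
    ∃ J : Finset ℕ, (∀ n : ℕ, n ∈ J ↔ |(n : ℝ) - t| ≤ r) ∧ (J.card : ℝ) ≤ 2 * r + 1 := by
  refine ⟨Finset.Icc ⌈t - r⌉₊ ⌊t + r⌋₊, fun n => ?_, ?_⟩
  · rw [Finset.mem_Icc, Nat.ceil_le, Nat.le_floor_iff (by linarith), abs_le]
    constructor
    · rintro ⟨h1, h2⟩
      constructor <;> linarith
    · rintro ⟨h1, h2⟩
      constructor <;> linarith
  · rw [Nat.card_Icc]
    have h1 := Nat.le_ceil (t - r)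
    have h2 := Nat.floor_le (show 0 ≤ t + r by linarith)
    by_cases h : ⌈t - r⌉₊ ≤ ⌊t + r⌋₊ + 1
    · rw [Nat.cast_sub h]
      push_cast
      linarith
    · rw [Nat.sub_eq_zero_of_le (by omega)]
      push_cast
      linarith

/-- a large value has a cluster of zeros nearby -/
theorem large_cluster {δ η : ℝ} (hδ : 0 < δ) (hδ1 : δ ≤ 1 / 4) (hη : 0 < η) :
    ∃ κ R T0 : ℝ, 0 < κ ∧ 1 ≤ R ∧ 1 ≤ T0 ∧ ∀ T : ℝ, T0 ≤ T → ∀ σ : ℝ, 1 / 2 ≤ σ → σ ≤ 1 →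
      ∀ t : ℝ, 1 ≤ t → t ≤ T → T ^ η ≤ ‖riemannZeta ((σ : ℂ) + (t : ℂ) * I)‖ →
      ∃ n : ℕ, |(n : ℝ) - t| ≤ R ∧ κ * Real.log T ≤ NN (σ - δ) n (n + 1) := by
  classical
  obtain ⟨κ1, R, hκ1, hR, HF⟩ := few_bd (A := 5) (β := 2) (ρ := δ) (κ := η / 2) (X := 1) (by norm_num)
    (by norm_num) hδ (by linarith) (by positivity) le_rfl
  obtain ⟨T1, hT1, HW⟩ := sF_win (κ := κ1) (V := R) hκ1 hR
  have hR0 : 0 < 2 * (R + 1) + 1 := by linarith
  have hT10 : 1 ≤ T1 := by linarith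
  refine ⟨κ1 * (η / 2) / (2 * (R + 1) + 1), R + 1, T1 ^ (2 / η), by positivity, by linarith,
    Real.one_le_rpow hT10 (by positivity), ?_⟩
  intro T hT σ hσ hσ1 t ht1 htT hbig
  have hT0 : 1 ≤ T := (Real.one_le_rpow hT10 (by positivity)).trans hT
  have hTp : 0 < T := by linarith
  have hTT : T1 ≤ T ^ (η / 2) := by
    have h1 := Real.rpow_le_rpow (by positivity) hT (show 0 ≤ η / 2 by positivity)
    rw [← Real.rpow_mul (by linarith), show 2 / η * (η / 2) = 1 by field_simp, Real.rpow_one] at h1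
    exact h1
  have hsq : T ^ η = T ^ (η / 2) * T ^ (η / 2) := by
    rw [← Real.rpow_add hTp]
    congr 1
    ring
  have ht2 : T ^ (η / 2) ≤ t := by
    have h1 := Pool.Agent.H388LH.zeta_growth (s := (σ : ℂ) + (t : ℂ) * I) (by simp; linarith) (by simpa using ht1)
    have h2 : ‖(σ : ℂ) + (t : ℂ) * I‖ ≤ 1 + t := by
      refine (norm_add_le _ _).trans ?_
      rw [norm_mul, norm_I, mul_one, Complex.norm_real, Complex.norm_real, Real.norm_of_nonneg (by linarith),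
        Real.norm_of_nonneg (by linarith)]
      linarith
    have h3 : T ^ (η / 2) * T ^ (η / 2) ≤ 12 * t := by
      rw [← hsq]
      refine hbig.trans (h1.trans ?_)
      linarith
    have h4 : 12 ≤ T ^ (η / 2) := by linarith
    nlinarith
  have htT1 : T1 ≤ t := hTT.trans ht2
  have ht0 : 0 < t := by linarith
  obtain ⟨ℓ, hℓ⟩ : ∃ ℓ : ℝ, ℓ = Real.log t := ⟨_, rfl⟩
  have hℓ0 : 0 < ℓ := by
    rw [hℓ]
    exact Real.log_pos (by linarith)
  have hℓT : η / 2 * Real.log T ≤ ℓ := by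
    rw [hℓ, ← Real.log_rpow hTp]
    exact Real.log_le_log (by positivity) ht2
  obtain ⟨W1, W2, W3⟩ := HW (σ - δ) t (by linarith) (by linarith) htT1
  by_contra hcon
  push Not at hcon
  have hC : Cnt (sF (σ - δ) t) {z : ℂ | κ1 ≤ z.re ∧ z.re ≤ R ∧ |z.im| ≤ R} (κ1 * ℓ) := by
    intro S hS
    obtain ⟨J, hJ1, hJ2⟩ := near_card (t := t) (r := R + 1) (by linarith) (by linarith)
    have hinj : Set.InjOn (fun z : ℂ => ((σ - δ : ℝ) : ℂ) + (t : ℂ) * I + z) S := fun a _ b _ h =>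
      add_left_cancel h
    have him : ∀ z : ℂ, (((σ - δ : ℝ) : ℂ) + (t : ℂ) * I + z).im = t + z.im := fun z => by simp
    have hre : ∀ z : ℂ, (((σ - δ : ℝ) : ℂ) + (t : ℂ) * I + z).re = (σ - δ) + z.re := fun z => by simp
    have h1 := fiber_sum (σ := σ - δ) (S.image fun z : ℂ => ((σ - δ : ℝ) : ℂ) + (t : ℂ) * I + z) (by
      intro s hs
      obtain ⟨z, hz, rfl⟩ := Finset.mem_image.1 hs
      obtain ⟨a1, a2, a3, a4⟩ := hS z hz
      refine ⟨(sF_zero (by linarith)).1 a1, ?_⟩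
      rw [hre]
      linarith) J (by
      intro s hs
      obtain ⟨z, hz, rfl⟩ := Finset.mem_image.1 hs
      obtain ⟨a1, a2, a3, a4⟩ := hS z hz
      have a5 := abs_le.1 a4
      obtain ⟨n, hn1, hn2⟩ := exists_window (x := t + z.im) (by linarith)
      refine ⟨n, (hJ1 n).2 ?_, ?_, ?_⟩
      · rw [abs_le]
        constructor <;> linarith
      · rw [him]
        exact hn1
      · rw [him]
        exact hn2)
    rw [Finset.sum_image hinj] at h1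
    have h2 : (∑ z ∈ S, (analyticOrderNatAt (sF (σ - δ) t) z : ℝ)) ≤ ∑ n ∈ J, (NN (σ - δ) n (n + 1) : ℝ) := by
      have e : ∀ z ∈ S, analyticOrderNatAt (sF (σ - δ) t) z =
          analyticOrderNatAt riemannZeta (((σ - δ : ℝ) : ℂ) + (t : ℂ) * I + z) := fun z hz =>
        sF_order (by have := (hS z hz).2.2.2; linarith)
      rw [← Nat.cast_sum, ← Nat.cast_sum, Finset.sum_congr rfl e]
      exact_mod_cast h1
    refine h2.trans ?_
    have hlogT : 0 ≤ Real.log T := Real.log_nonneg hT0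
    calc ∑ n ∈ J, (NN (σ - δ) n (n + 1) : ℝ)
        ≤ ∑ n ∈ J, (κ1 * (η / 2) / (2 * (R + 1) + 1) * Real.log T) :=
          Finset.sum_le_sum fun n hn => (hcon n ((hJ1 n).1 hn)).le
      _ = J.card * (κ1 * (η / 2) / (2 * (R + 1) + 1) * Real.log T) := by
          rw [Finset.sum_const, nsmul_eq_mul]
      _ ≤ (2 * (R + 1) + 1) * (κ1 * (η / 2) / (2 * (R + 1) + 1) * Real.log T) := by
          apply mul_le_mul_of_nonneg_right hJ2
          positivity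
      _ = κ1 * (η / 2 * Real.log T) := by field_simp
      _ ≤ κ1 * ℓ := mul_le_mul_of_nonneg_left hℓT hκ1.le
  have key := HF ℓ (sF (σ - δ) t) hℓ0 (sF_diff _ _) (fun u a1 a2 a3 => by
      rw [hℓ]
      exact W1 u (by linarith) a2 a3)
    (fun u a1 a2 a3 => by
      rw [hℓ]
      exact W2 u a1 a2 a3) hC (δ : ℂ) (by simp) (by simp; linarith) (by simp)
  have h5 := (W3 (δ : ℂ) (by simp; linarith) (by simp; linarith) (by simp; linarith)).1
  have e : (((σ - δ : ℝ) : ℂ) + (t : ℂ) * I + (δ : ℂ) : ℂ) = (σ : ℂ) + (t : ℂ) * I := by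
    push_cast
    ring
  rw [e] at h5
  have h6 : Real.exp (η / 2 * ℓ) ≤ T ^ (η / 2) := by
    rw [hℓ, mul_comm, ← Real.rpow_def_of_pos ht0]
    exact Real.rpow_le_rpow ht0.le htT (by positivity)
  have h7 : T ^ (η / 2) * T ^ (η / 2) ≤ 2 * T ^ (η / 2) := by
    rw [← hsq]
    linarith
  have h8 : 12 ≤ T ^ (η / 2) := by linarith
  nlinarith

end Pool.Agent.Q30.DH
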