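import Mathlib
import Pool.Agent.Q30.DH.Few

/-!
# A cluster of zeros gives a set of large values of positive area
-/

set_option autoImplicit false

open Complex Set MeasureTheory Filter Topology Metric
open scoped ENNReal

namespace Pool.Agent.Q30.DH

open Pool.Agent.Q30.OS Pool.Agent.W169.HF

lemma zeta_meas : Measurable riemannZeta := by
  have h1 : riemannZeta = fun s => if s = 1 then riemannZeta 1 else riemannZeta₁ s / (s - 1) := by
    funext s
    split_ifs with h
    · rw [h]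
    · rw [Pool.Agent.H437R2.z1_of_ne h, mul_div_cancel_left₀ _ (sub_ne_zero.2 h)]
  rw [h1]
  refine Measurable.ite (measurableSet_eq) measurable_const ?_
  exact differentiable_riemannZeta₁.continuous.measurable.div (by fun_prop)

/-- the area of a rectangle -/
lemma rect_area (a b c d : ℝ) :
    volume {z : ℂ | a < z.re ∧ z.re < b ∧ c ≤ z.im ∧ z.im ≤ d} = ENNReal.ofReal (b - a) * ENNReal.ofReal (d - c) := by
  have h1 : {z : ℂ | a < z.re ∧ z.re < b ∧ c ≤ z.im ∧ z.im ≤ d} =
      Complex.measurableEquivRealProd ⁻¹' (Ioo a b ×ˢ Icc c d) := by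
    ext z
    simp only [mem_setOf_eq, mem_preimage, Complex.measurableEquivRealProd_apply, mem_prod, mem_Ioo, mem_Icc]
    tauto
  rw [h1, Complex.volume_preserving_equiv_real_prod.measure_preimage
    (measurableSet_Ioo.prod measurableSet_Icc).nullMeasurableSet, Measure.volume_eq_prod, Measure.prod_prod,
    Real.volume_Ioo, Real.volume_Icc]

/-- a large value at a point gives large values on a set of positive area -/
theorem point_area {f : ℂ → ℂ} (hf : Differentiable ℂ f) {c : ℂ} {r M κ ℓ : ℝ} (hr : 0 < r) (hM : 0 ≤ M)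
    (hκ : 0 < κ) (hℓ : 0 < ℓ) (hup : ∀ z ∈ ball c r, ‖f z‖ ≤ Real.exp (M * ℓ))
    (hbig : Real.exp (κ * ℓ) < ‖f c‖) :
    ENNReal.ofReal (Real.pi * r ^ 2 * (κ / (2 * M))) ≤
      volume {z : ℂ | z ∈ ball c r ∧ Real.exp (κ / 2 * ℓ) ≤ ‖f z‖} := by
  have h0 : f c ≠ 0 := norm_pos_iff.1 (lt_trans (Real.exp_pos _) hbig)
  have hκM : κ < M := by
    have h1 := lt_of_lt_of_le hbig (hup c (mem_ball_self hr))
    rw [Real.exp_lt_exp] at h1
    exact lt_of_mul_lt_mul_right h1 hℓ.le
  have hlogc : κ * ℓ ≤ Real.log ‖f c‖ := by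
    rw [Real.le_log_iff_exp_le (norm_pos_iff.2 h0)]
    exact hbig.le
  have hA := area_lintegral hf hr h0 (M := M * ℓ) (by positivity) hup
  have hMpos : 0 < (M - κ / 2) * ℓ := by
    have : 0 < M - κ / 2 := by linarith
    positivity
  have hmeas : Measurable (fun z : ℂ => ENNReal.ofReal (M * ℓ - Real.log ‖f z‖)) := by
    have h1 : Measurable (fun z : ℂ => Real.log ‖f z‖) :=
      Real.measurable_log.comp hf.continuous.norm.measurable
    fun_prop
  have hmk := mul_meas_ge_le_lintegral (μ := volume.restrict (ball c r)) hmeas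
    (ENNReal.ofReal ((M - κ / 2) * ℓ))
  obtain ⟨bad, hbad⟩ : ∃ bad : Set ℂ, bad = {z : ℂ | ENNReal.ofReal ((M - κ / 2) * ℓ) ≤
    ENNReal.ofReal (M * ℓ - Real.log ‖f z‖)} := ⟨_, rfl⟩
  have hbm : MeasurableSet bad := by
    rw [hbad]
    exact measurableSet_le measurable_const hmeas
  rw [← hbad, Measure.restrict_apply hbm] at hmk
  have hb1 : volume (bad ∩ ball c r) ≤ ENNReal.ofReal (Real.pi * r ^ 2 * ((M - κ) / (M - κ / 2))) := by
    have h2 : ENNReal.ofReal ((M - κ / 2) * ℓ) * volume (bad ∩ ball c r) ≤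
        ENNReal.ofReal ((M - κ / 2) * ℓ) * ENNReal.ofReal (Real.pi * r ^ 2 * ((M - κ) / (M - κ / 2))) := by
      refine (hmk.trans hA).trans ?_
      rw [← ENNReal.ofReal_mul hMpos.le]
      apply ENNReal.ofReal_le_ofReal
      have h3 : (M - κ / 2) * ℓ * (Real.pi * r ^ 2 * ((M - κ) / (M - κ / 2))) = Real.pi * r ^ 2 * ((M - κ) * ℓ) := by
        have h4 : (M - κ / 2) * ((M - κ) / (M - κ / 2)) = M - κ := mul_div_cancel₀ _ (by linarith)
        calc (M - κ / 2) * ℓ * (Real.pi * r ^ 2 * ((M - κ) / (M - κ / 2)))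
            = Real.pi * r ^ 2 * (((M - κ / 2) * ((M - κ) / (M - κ / 2))) * ℓ) := by ring
          _ = _ := by rw [h4]
      rw [h3]
      apply mul_le_mul_of_nonneg_left _ (by positivity)
      linarith
    exact (ENNReal.mul_le_mul_iff_right (ENNReal.ofReal_pos.2 hMpos).ne' ENNReal.ofReal_ne_top).1 h2
  have hcov : ball c r ⊆ (bad ∩ ball c r) ∪ {z : ℂ | z ∈ ball c r ∧ Real.exp (κ / 2 * ℓ) ≤ ‖f z‖} := by
    intro z hz
    by_cases h : Real.exp (κ / 2 * ℓ) ≤ ‖f z‖
    · exact Or.inr ⟨hz, h⟩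
    · refine Or.inl ⟨?_, hz⟩
      push Not at h
      rw [hbad]
      apply ENNReal.ofReal_le_ofReal
      have hlog : Real.log ‖f z‖ ≤ κ / 2 * ℓ := by
        by_cases h0 : f z = 0
        · rw [h0, norm_zero, Real.log_zero]
          positivity
        · rw [Real.log_le_iff_le_exp (norm_pos_iff.2 h0)]
          exact h.le
      linarith
  have hvol : volume (ball c r) = ENNReal.ofReal (Real.pi * r ^ 2) := by
    rw [Complex.volume_ball, mul_comm, ENNReal.ofReal_mul Real.pi_pos.le, ENNReal.ofReal_pow hr.le]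
    congr 1
    rw [← NNReal.coe_real_pi, ENNReal.ofReal_coe_nnreal]
  have h5 := (measure_mono (μ := volume) hcov).trans (measure_union_le _ _)
  rw [hvol] at h5
  have h6 : ENNReal.ofReal (Real.pi * r ^ 2) ≤ ENNReal.ofReal (Real.pi * r ^ 2 * ((M - κ) / (M - κ / 2))) +
      volume {z : ℂ | z ∈ ball c r ∧ Real.exp (κ / 2 * ℓ) ≤ ‖f z‖} := h5.trans (add_le_add_left hb1 _)
  have h7 := tsub_le_iff_left.2 h6
  rw [← ENNReal.ofReal_sub _ (by
    have : 0 ≤ (M - κ) / (M - κ / 2) := div_nonneg (by linarith) (by linarith)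
    positivity)] at h7
  refine le_trans (ENNReal.ofReal_le_ofReal ?_) h7
  have h8 : κ / (2 * M) ≤ 1 - (M - κ) / (M - κ / 2) := by
    have hM1 : 0 < M := by linarith
    have hM2 : 0 < M - κ / 2 := by linarith
    have h9 : 1 - (M - κ) / (M - κ / 2) = (κ / 2) / (M - κ / 2) := by
      rw [one_sub_div hM2.ne']
      congr 1
      ring
    rw [h9, div_le_div_iff₀ (by positivity) hM2]
    nlinarith
  have h10 : 0 ≤ Real.pi * r ^ 2 := by positivity
  nlinarith

end Pool.Agent.Q30.DH
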