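import Mathlib
import Pool.Agent.Q30.DH.Area

/-!
# A cluster of zeros gives large values of zeta on a set of positive area
-/

set_option autoImplicit false

open Complex Set MeasureTheory Filter Topology Metric
open scoped ENNReal

namespace Pool.Agent.Q30.DH

open Pool.Agent.Q30.OS Pool.Agent.W169.HF

/-- a cluster of zeros in the window at the height `n` gives a large value -/
theorem cluster_point {δ η κ' : ℝ} (hδ : 0 < δ) (hδ1 : δ ≤ 1 / 8) (hη : 0 < η) :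
    ∃ κ R T0 : ℝ, 0 < κ ∧ 1 ≤ R ∧ 4 * R + 16 ≤ T0 ∧ ∀ T : ℝ, T0 ≤ T → ∀ σ : ℝ, 1 / 2 ≤ σ → σ ≤ 1 →
      ∀ n : ℕ, T0 ≤ n → (n : ℝ) ≤ T → η * Real.log T ≤ NN σ n (n + 1) →
      (∀ u : ℂ, -(3 / 4) ≤ u.re → u.re ≤ R + 1 → |u.im| ≤ R + 1 → ‖sF (σ - δ) n u‖ ≤ Real.exp (5 * Real.log T) ∧
        ‖sF (σ - δ) n u‖ ≤ ‖riemannZeta (((σ - δ : ℝ) : ℂ) + (n : ℂ) * I + u)‖ * 2) ∧
      ∃ u : ℂ, 0 ≤ u.re ∧ u.re ≤ R ∧ |u.im| ≤ R ∧ Real.exp (κ * Real.log T) < ‖sF (σ - δ) n u‖ := by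
  classical
  obtain ⟨κ, R, hκ, hR, HB⟩ := bd_few (R := 1) (δ := δ) (ε := η / 2) (β := 2) le_rfl hδ (by linarith)
    (by positivity) (by norm_num)
  obtain ⟨T1, hT1, HW⟩ := sF_win (κ := κ) (V := R + 1) hκ (by linarith)
  refine ⟨κ, R, T1 + 4, hκ, hR, by linarith, ?_⟩
  intro T hT σ hσ hσ1 n hn hnT hcl
  have hn0 : (0 : ℝ) < n := by linarith
  obtain ⟨W1, W2, W3⟩ := HW (σ - δ) n (by linarith) (by linarith) (by linarith)
  obtain ⟨ℓ, hℓd⟩ : ∃ ℓ : ℝ, ℓ = Real.log T := ⟨_, rfl⟩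
  have hlog : Real.log n ≤ ℓ := by
    rw [hℓd]
    exact Real.log_le_log hn0 hnT
  have hlogn : 0 < Real.log n := Real.log_pos (by linarith)
  have hℓ : 0 < ℓ := by linarith
  rw [← hℓd] at hcl ⊢
  refine ⟨fun u a1 a2 a3 => ⟨(W1 u a1 a2 a3).trans (Real.exp_le_exp.2 (by linarith)), (W3 u a1 a2 a3).2⟩, ?_⟩
  by_contra hcon
  push Not at hcon
  have hC := HB ℓ (sF (σ - δ) n) hℓ (sF_diff _ _) hcon (fun u a1 a2 a3 => by
    refine le_trans (Real.exp_le_exp.2 ?_) (W2 u a1 (by linarith) (by linarith)).1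
    nlinarith) (by
    refine ⟨2, fun h => ?_⟩
    have := (W2 2 (by simp) (by simp; linarith) (by simp; linarith)).1
    rw [h, norm_zero] at this
    exact absurd this (not_le.2 (Real.exp_pos _)))
  obtain ⟨w, hw⟩ : ∃ w : ℂ, w = ((σ - δ : ℝ) : ℂ) + (n : ℂ) * I := ⟨_, rfl⟩
  have hinj : Set.InjOn (fun s : ℂ => s - w) ((ZN_fin σ n (n + 1)).toFinset : Set ℂ) := fun a _ b _ h =>
    sub_left_injective h
  have hre : ∀ s : ℂ, (s - w).re = s.re - (σ - δ) := fun s => by rw [hw]; simp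
  have him : ∀ s : ℂ, (s - w).im = s.im - n := fun s => by rw [hw]; simp
  have hpt : ∀ s : ℂ, ((σ - δ : ℝ) : ℂ) + ((n : ℝ) : ℂ) * I + (s - w) = s := fun s => by
    rw [hw, ofReal_natCast]
    ring
  have h1 := hC ((ZN_fin σ n (n + 1)).toFinset.image fun s => s - w) (by
    intro z hz
    obtain ⟨s, hs, rfl⟩ := Finset.mem_image.1 hz
    rw [Set.Finite.mem_toFinset] at hs
    obtain ⟨a1, a2, a3, a4⟩ := hs
    have hs1 : s.re ≤ 1 := by
      by_contra hcon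
      push Not at hcon
      exact riemannZeta_ne_zero_of_one_le_re hcon.le a1
    have habs : |(s - w).im| ≤ 1 := by
      rw [him, abs_le]
      constructor <;> linarith
    refine ⟨(sF_zero (by linarith)).2 (by rw [hpt]; exact a1), ?_, ?_, habs⟩
    · rw [hre]
      linarith
    · rw [hre]
      linarith)
  rw [Finset.sum_image hinj] at h1
  have h2 : ∀ s ∈ (ZN_fin σ n (n + 1)).toFinset, (analyticOrderNatAt (sF (σ - δ) n) (s - w) : ℝ) =
      (analyticOrderNatAt riemannZeta s : ℝ) := by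
    intro s hs
    rw [Set.Finite.mem_toFinset] at hs
    obtain ⟨a1, a2, a3, a4⟩ := hs
    have habs : |(s - w).im| ≤ 1 := by
      rw [him, abs_le]
      constructor <;> linarith
    rw [sF_order (by linarith), hpt]
  rw [Finset.sum_congr rfl h2, ← Nat.cast_sum] at h1
  have h3 : NN σ n (n + 1) = ∑ s ∈ (ZN_fin σ n (n + 1)).toFinset, analyticOrderNatAt riemannZeta s :=
    DH31.cnt_eq _
  rw [← h3] at h1
  nlinarith

/-- a cluster of zeros gives large values on a set of positive area -/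
theorem cluster_area {δ η : ℝ} (hδ : 0 < δ) (hδ1 : δ ≤ 1 / 8) (hη : 0 < η) :
    ∃ κ c R T0 : ℝ, 0 < κ ∧ 0 < c ∧ 1 ≤ R ∧ 2 * R + 2 ≤ T0 ∧ ∀ T : ℝ, T0 ≤ T → ∀ σ : ℝ, 1 / 2 ≤ σ → σ ≤ 1 →
      ∀ n : ℕ, T0 ≤ n → (n : ℝ) ≤ T → η * Real.log T ≤ NN σ n (n + 1) →
      ENNReal.ofReal c ≤ volume {s : ℂ | (σ - 2 * δ ≤ s.re ∧ s.re ≤ 1) ∧ |s.im - n| ≤ R ∧
        T ^ κ ≤ ‖riemannZeta s‖} := by
  classical
  obtain ⟨κ, R, T1, hκ, hR, hT1, HP⟩ := cluster_point (κ' := 0) hδ hδ1 hη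
  obtain ⟨θ, hθd⟩ : ∃ θ : ℝ, θ = Real.pi * δ * κ / 40 := ⟨_, rfl⟩
  have hθ : 0 < θ := by rw [hθd]; positivity
  obtain ⟨A0, hA0, HA⟩ := DH31.zeta_bounds (a := 1 + θ) (by linarith)
  refine ⟨κ / 3, Real.pi * δ ^ 2 * κ / 20, R + 1, max T1 (max ((2 : ℝ) ^ (6 / κ)) ((2 * A0) ^ (3 / κ))),
    by positivity, by positivity, by linarith, le_trans (by linarith) (le_max_left _ _), ?_⟩
  intro T hT σ hσ hσ1 n hn hnT hcl
  have hTT1 : T1 ≤ T := (le_max_left _ _).trans hT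
  have hnT1 : T1 ≤ n := (le_max_left _ _).trans hn
  have hTp : 0 < T := by linarith
  have hT2 : 2 ≤ T ^ (κ / 6) := by
    have h1 := Real.rpow_le_rpow (by positivity) (((le_max_left _ _).trans (le_max_right _ _)).trans hT)
      (show 0 ≤ κ / 6 by positivity)
    rw [← Real.rpow_mul (by norm_num), show 6 / κ * (κ / 6) = 1 by field_simp, Real.rpow_one] at h1
    exact h1
  have hT3 : 2 * A0 ≤ T ^ (κ / 3) := by
    have h1 := Real.rpow_le_rpow (by positivity) (((le_max_right _ _).trans (le_max_right _ _)).trans hT)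
      (show 0 ≤ κ / 3 by positivity)
    rw [← Real.rpow_mul (by positivity), show 3 / κ * (κ / 3) = 1 by field_simp, Real.rpow_one] at h1
    exact h1
  obtain ⟨W, u0, hu1, hu2, hu3, hu4⟩ := HP T hTT1 σ hσ hσ1 n hnT1 hnT hcl
  have hℓ : 0 < Real.log T := Real.log_pos (by linarith)
  have hball : ∀ z ∈ ball u0 δ, -(3 / 4) ≤ z.re ∧ z.re ≤ R + 1 ∧ |z.im| ≤ R + 1 ∧ -δ ≤ z.re ∧
      u0.im - δ ≤ z.im ∧ z.im ≤ u0.im + δ := by
    intro z hz
    rw [mem_ball, dist_eq_norm] at hz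
    have h1 := (Complex.abs_re_le_norm (z - u0)).trans hz.le
    have h2 := (Complex.abs_im_le_norm (z - u0)).trans hz.le
    rw [sub_re, abs_le] at h1
    rw [sub_im, abs_le] at h2
    have h3 := abs_le.1 hu3
    refine ⟨by linarith, by linarith, abs_le.2 ⟨by linarith, by linarith⟩, by linarith, by linarith, by linarith⟩
  have hPA := point_area (sF_diff (σ - δ) n) (c := u0) (r := δ) (M := 5) (κ := κ) (ℓ := Real.log T) hδ
    (by norm_num) hκ hℓ (fun z hz => (W z (hball z hz).1 (hball z hz).2.1 (hball z hz).2.2.1).1) hu4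
  obtain ⟨w, hw⟩ : ∃ w : ℂ, w = ((σ - δ : ℝ) : ℂ) + (n : ℂ) * I := ⟨_, rfl⟩
  have hre : ∀ z : ℂ, (w + z).re = (σ - δ) + z.re := fun s => by rw [hw]; simp
  have him : ∀ z : ℂ, (w + z).im = n + z.im := fun s => by rw [hw]; simp
  obtain ⟨E, hE⟩ : ∃ E : Set ℂ, E = {s : ℂ | (σ - 2 * δ ≤ s.re ∧ s.re ≤ 1) ∧ |s.im - n| ≤ R + 1 ∧
        T ^ (κ / 3) ≤ ‖riemannZeta s‖} := ⟨_, rfl⟩
  rw [← hE]
  have hcov : {z : ℂ | z ∈ ball u0 δ ∧ Real.exp (κ / 2 * Real.log T) ≤ ‖sF (σ - δ) n z‖} ⊆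
      ((fun z => w + z) ⁻¹' E) ∪
        {z : ℂ | 1 - (σ - δ) < z.re ∧ z.re < 1 - (σ - δ) + θ ∧ u0.im - δ ≤ z.im ∧ z.im ≤ u0.im + δ} := by
    rintro z ⟨hz, hz2⟩
    obtain ⟨c1, c2, c3, c4, c5, c6⟩ := hball z hz
    have h1 := (W z c1 c2 c3).2
    rw [← hw] at h1
    have h2 : Real.exp (κ / 2 * Real.log T) = T ^ (κ / 3) * T ^ (κ / 6) := by
      rw [← Real.rpow_add hTp, Real.rpow_def_of_pos hTp]
      congr 1
      ring
    rw [h2] at hz2
    have h0 : 0 < T ^ (κ / 3) := Real.rpow_pos_of_pos hTp _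
    have h3 : T ^ (κ / 3) ≤ ‖riemannZeta (w + z)‖ := by nlinarith
    have h3' : T ^ (κ / 3) * 2 ≤ T ^ (κ / 3) * T ^ (κ / 6) := mul_le_mul_of_nonneg_left hT2 h0.le
    by_cases h4 : (w + z).re ≤ 1
    · refine Or.inl ?_
      rw [mem_preimage, hE]
      refine ⟨⟨by rw [hre]; linarith, h4⟩, ?_, h3⟩
      rw [him, add_sub_cancel_left]
      exact c3
    · push Not at h4
      rw [hre] at h4
      refine Or.inr ⟨by linarith, ?_, c5, c6⟩
      by_contra h5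
      push Not at h5
      have h6 := (HA (w + z) (by rw [hre]; linarith)).1
      have hA0' : 1 ≤ A0 := hA0
      linarith
  have h5 := hPA.trans ((measure_mono hcov).trans (measure_union_le _ _))
  rw [measure_preimage_add, rect_area] at h5
  have h6 : ENNReal.ofReal (1 - (σ - δ) + θ - (1 - (σ - δ))) * ENNReal.ofReal (u0.im + δ - (u0.im - δ)) =
      ENNReal.ofReal (θ * (2 * δ)) := by
    rw [← ENNReal.ofReal_mul (by linarith)]
    congr 1
    ring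
  rw [h6, add_comm] at h5
  have h7 := tsub_le_iff_left.2 h5
  rw [← ENNReal.ofReal_sub _ (by positivity)] at h7
  refine le_trans (ENNReal.ofReal_le_ofReal ?_) h7
  rw [hθd]
  apply le_of_eq
  ring

end Pool.Agent.Q30.DH
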