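import Mathlib
import Pool.Agent.Q30.DH.Few
import Pool.Agent.Results.MP_4467b5_nt.IsolatedZeros

/-!
# Zero density and clusters of zeros
-/

set_option autoImplicit false

open Complex Set MeasureTheory Filter Topology

namespace Pool.Agent.Q30.DH

/-- zero density with the exponent `A` -/
def ZD (A : ℝ → ℝ) : Prop := ∀ ε : ℝ, 0 < ε → ∃ C : ℝ, 0 < C ∧ ∃ T0 : ℝ, ∀ T : ℝ, T0 ≤ T →
  ∀ σ : ℝ, 1 / 2 ≤ σ → σ ≤ 1 → (NN σ 0 T : ℝ) ≤ C * T ^ (A σ + ε)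

/-- density of the large values -/
def LV (A : ℝ → ℝ) : Prop := ∀ ε : ℝ, 0 < ε → ∀ η : ℝ, 0 < η → ∃ C : ℝ, 0 < C ∧ ∃ T0 : ℝ, ∀ T : ℝ, T0 ≤ T →
  ∀ σ : ℝ, 1 / 2 ≤ σ → σ ≤ 1 →
    volume {t : ℝ | 1 ≤ t ∧ t ≤ T ∧ T ^ η ≤ ‖riemannZeta ((σ : ℂ) + (t : ℂ) * I)‖} ≤
      ENNReal.ofReal (C * T ^ (A σ + ε))

/-- density of the clusters -/
def CL (A : ℝ → ℝ) : Prop := ∀ ε : ℝ, 0 < ε → ∀ η : ℝ, 0 < η → ∃ C : ℝ, 0 < C ∧ ∃ T0 : ℝ, ∀ T : ℝ, T0 ≤ T →
  ∀ σ : ℝ, 1 / 2 ≤ σ → σ ≤ 1 →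
    (((Finset.range (⌊T⌋₊ + 1)).filter (fun n : ℕ => η * Real.log T ≤ NN σ n (n + 1))).card : ℝ) ≤
      C * T ^ (A σ + ε)

/-- admissible exponents -/
structure AdmE (A : ℝ → ℝ) : Prop where
  cont : ContinuousOn A (Icc (1 / 2) 1)
  anti : AntitoneOn A (Icc (1 / 2) 1)
  low : ∀ σ : ℝ, 1 / 2 ≤ σ → σ ≤ 1 → 2 * (1 - σ) ≤ A σ

variable {A : ℝ → ℝ}

lemma AdmE.shift (hA : AdmE A) {ε : ℝ} (hε : 0 < ε) : ∃ δ0 : ℝ, 0 < δ0 ∧ ∀ δ σ : ℝ, 0 ≤ δ → δ ≤ δ0 →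
    1 / 2 ≤ σ → σ ≤ 1 → (1 / 2 ≤ σ - δ → A (σ - δ) ≤ A σ + ε) ∧ (σ - δ < 1 / 2 → 1 ≤ A σ + ε) := by
  have huc := isCompact_Icc.uniformContinuousOn_of_continuous hA.cont
  rw [Metric.uniformContinuousOn_iff] at huc
  obtain ⟨d, hd, H⟩ := huc ε hε
  refine ⟨min (d / 2) (ε / 2), lt_min (by positivity) (by positivity), ?_⟩
  intro δ σ hδ hδ0 hσ hσ1
  have h1 : δ ≤ d / 2 := hδ0.trans (min_le_left _ _)
  have h2 : δ ≤ ε / 2 := hδ0.trans (min_le_right _ _)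
  constructor
  · intro h
    have := H (σ - δ) ⟨h, by linarith⟩ σ ⟨hσ, hσ1⟩ (by
      rw [Real.dist_eq, show σ - δ - σ = -δ by ring, abs_neg, abs_of_nonneg hδ]
      linarith)
    rw [Real.dist_eq] at this
    have := (abs_lt.1 this).2
    linarith
  · intro h
    have := hA.low σ hσ hσ1
    linarith

lemma AdmE.bdd (hA : AdmE A) {σ : ℝ} (h1 : 1 / 2 ≤ σ) (h2 : σ ≤ 1) : 0 ≤ A σ ∧ A σ ≤ A (1 / 2) := by
  constructor
  · have := hA.low σ h1 h2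
    linarith
  · exact hA.anti ⟨le_rfl, by norm_num⟩ ⟨h1, h2⟩ h1

lemma two_mul_rpow {T x B : ℝ} (hT : 0 ≤ T) (hx : x ≤ B) : (2 * T) ^ x ≤ 2 ^ B * T ^ x := by
  rw [Real.mul_rpow (by norm_num) hT]
  exact mul_le_mul_of_nonneg_right (Real.rpow_le_rpow_of_exponent_le (by norm_num) hx)
    (Real.rpow_nonneg hT _)

lemma log_two_mul {T : ℝ} (hT : 2 ≤ T) : Real.log (2 * T) ≤ 2 * Real.log T := by
  rw [Real.log_mul (by norm_num) (by linarith)]
  have := Real.log_le_log (by norm_num) hT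
  linarith

/-- clusters give large values -/
theorem lv_of_cl (hA : AdmE A) (h : CL A) : LV A := by
  classical
  intro ε hε η hη
  obtain ⟨δ0, hδ0, hsh⟩ := hA.shift (ε := ε / 2) (by positivity)
  obtain ⟨δ, hδd⟩ : ∃ δ : ℝ, δ = min δ0 (1 / 4) := ⟨_, rfl⟩
  have hδ : 0 < δ := by rw [hδd]; exact lt_min hδ0 (by norm_num)
  obtain ⟨κ, R, T1, hκ, hR, hT1, HL⟩ := large_cluster (δ := δ) (η := η) hδ
    (by rw [hδd]; exact min_le_right _ _) hη
  obtain ⟨C, hC, T2, H⟩ := h (ε / 2) (by positivity) (κ / 2) (by positivity)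
  obtain ⟨B, hB⟩ : ∃ B : ℝ, B = A (1 / 2) + ε := ⟨_, rfl⟩
  refine ⟨2 * R * (C * 2 ^ B) + 1, by positivity, max (max T1 T2) (max R 2), ?_⟩
  intro T hT σ hσ hσ1
  have hT1' : T1 ≤ T := ((le_max_left _ _).trans (le_max_left _ _)).trans hT
  have hT2' : T2 ≤ T := ((le_max_right _ _).trans (le_max_left _ _)).trans hT
  have hTR : R ≤ T := ((le_max_left _ _).trans (le_max_right _ _)).trans hT
  have hT2 : 2 ≤ T := ((le_max_right _ _).trans (le_max_right _ _)).trans hT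
  have hT0 : 0 ≤ T := by linarith
  obtain ⟨s1, s2⟩ := hsh δ σ hδ.le (by rw [hδd]; exact min_le_left _ _) hσ hσ1
  obtain ⟨b1, b2⟩ := hA.bdd hσ hσ1
  have hTp : 0 ≤ T ^ (A σ + ε) := Real.rpow_nonneg hT0 _
  by_cases hc : 1 / 2 ≤ σ - δ
  · have s3 := s1 hc
    obtain ⟨K, hK⟩ : ∃ K : Finset ℕ, K = (Finset.range (⌊2 * T⌋₊ + 1)).filter
        (fun n : ℕ => κ / 2 * Real.log (2 * T) ≤ NN (σ - δ) n (n + 1)) := ⟨_, rfl⟩
    have h1 := H (2 * T) (by linarith) (σ - δ) hc (by linarith)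
    rw [← hK] at h1
    have hsub : {t : ℝ | 1 ≤ t ∧ t ≤ T ∧ T ^ η ≤ ‖riemannZeta ((σ : ℂ) + (t : ℂ) * I)‖} ⊆
        ⋃ n ∈ K, Icc ((n : ℝ) - R) (n + R) := by
      rintro t ⟨ht1, ht2, ht3⟩
      obtain ⟨n, hn1, hn2⟩ := HL T hT1' σ hσ hσ1 t ht1 ht2 ht3
      rw [abs_le] at hn1
      rw [mem_iUnion₂]
      refine ⟨n, ?_, ⟨by linarith, by linarith⟩⟩
      rw [hK, Finset.mem_filter, Finset.mem_range, Nat.lt_add_one_iff, Nat.le_floor_iff (by linarith)]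
      refine ⟨by linarith, le_trans ?_ hn2⟩
      have := log_two_mul hT2
      nlinarith
    calc volume {t : ℝ | 1 ≤ t ∧ t ≤ T ∧ T ^ η ≤ ‖riemannZeta ((σ : ℂ) + (t : ℂ) * I)‖}
        ≤ volume (⋃ n ∈ K, Icc ((n : ℝ) - R) (n + R)) := measure_mono hsub
      _ ≤ ∑ n ∈ K, volume (Icc ((n : ℝ) - R) (n + R)) := measure_biUnion_finset_le _ _
      _ = ∑ n ∈ K, ENNReal.ofReal (2 * R) := by
          refine Finset.sum_congr rfl fun n _ => ?_
          rw [Real.volume_Icc]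
          congr 1
          ring
      _ = ENNReal.ofReal (K.card * (2 * R)) := by
          rw [Finset.sum_const, nsmul_eq_mul, ENNReal.ofReal_mul (Nat.cast_nonneg _), ENNReal.ofReal_natCast]
      _ ≤ ENNReal.ofReal ((2 * R * (C * 2 ^ B) + 1) * T ^ (A σ + ε)) := by
          apply ENNReal.ofReal_le_ofReal
          have h2 : (2 * T) ^ (A (σ - δ) + ε / 2) ≤ 2 ^ B * T ^ (A σ + ε) := by
            refine (two_mul_rpow (B := B) hT0 (by rw [hB]; linarith)).trans ?_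
            apply mul_le_mul_of_nonneg_left _ (by positivity)
            exact Real.rpow_le_rpow_of_exponent_le (by linarith) (by linarith)
          calc (K.card : ℝ) * (2 * R) ≤ (C * (2 ^ B * T ^ (A σ + ε))) * (2 * R) := by
                apply mul_le_mul_of_nonneg_right _ (by linarith)
                exact h1.trans (mul_le_mul_of_nonneg_left h2 hC.le)
            _ ≤ _ := by nlinarith
  · push Not at hc
    have s3 := s2 hc
    calc volume {t : ℝ | 1 ≤ t ∧ t ≤ T ∧ T ^ η ≤ ‖riemannZeta ((σ : ℂ) + (t : ℂ) * I)‖}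
        ≤ volume (Icc 1 T) := measure_mono fun t ht => ⟨ht.1, ht.2.1⟩
      _ = ENNReal.ofReal (T - 1) := Real.volume_Icc
      _ ≤ ENNReal.ofReal ((2 * R * (C * 2 ^ B) + 1) * T ^ (A σ + ε)) := by
          apply ENNReal.ofReal_le_ofReal
          have h2 : T ≤ T ^ (A σ + ε) := by
            calc T = T ^ (1 : ℝ) := (Real.rpow_one T).symm
              _ ≤ _ := Real.rpow_le_rpow_of_exponent_le (by linarith) (by linarith)
          have h3 : 0 ≤ 2 * R * (C * 2 ^ B) := by positivity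
          nlinarith

/-- zero density gives few clusters -/
theorem cl_of_zd (hA : AdmE A) (h : ZD A) : CL A := by
  classical
  intro ε hε η hη
  obtain ⟨C, hC, T0, H⟩ := h ε hε
  obtain ⟨B, hB⟩ : ∃ B : ℝ, B = A (1 / 2) + ε := ⟨_, rfl⟩
  refine ⟨C * 2 ^ B / η, by positivity, max T0 3, ?_⟩
  intro T hT σ hσ hσ1
  have hT0 : T0 ≤ T := (le_max_left _ _).trans hT
  have hT3 : 3 ≤ T := (le_max_right _ _).trans hT
  obtain ⟨b1, b2⟩ := hA.bdd hσ hσ1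
  obtain ⟨K, hK⟩ : ∃ K : Finset ℕ, K = (Finset.range (⌊T⌋₊ + 1)).filter
      (fun n : ℕ => η * Real.log T ≤ NN σ n (n + 1)) := ⟨_, rfl⟩
  rw [← hK]
  have h1 := sum_windows σ K T (fun n hn => by
    rw [hK, Finset.mem_filter, Finset.mem_range, Nat.lt_add_one_iff, Nat.le_floor_iff (by linarith)] at hn
    exact hn.1)
  have h2 : NN σ 0 (T + 1) ≤ NN σ 0 (2 * T) := by
    refine DH31.cnt_mono (ZN_fin _ _ _) fun s hs => ⟨hs.1, hs.2.1, hs.2.2.1, ?_⟩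
    have := hs.2.2.2
    linarith
  have h3 := H (2 * T) (by linarith) σ hσ hσ1
  have hlog : 1 ≤ Real.log T := by
    rw [Real.le_log_iff_exp_le (by linarith)]
    linarith [Real.exp_one_lt_d9]
  have h4 : (K.card : ℝ) * η ≤ C * (2 ^ B * T ^ (A σ + ε)) := by
    calc (K.card : ℝ) * η ≤ (K.card : ℝ) * (η * Real.log T) := by
          apply mul_le_mul_of_nonneg_left _ (Nat.cast_nonneg _)
          nlinarith
      _ = ∑ n ∈ K, (η * Real.log T) := by rw [Finset.sum_const, nsmul_eq_mul]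
      _ ≤ ∑ n ∈ K, (NN σ n (n + 1) : ℝ) := Finset.sum_le_sum fun n hn => by
          rw [hK, Finset.mem_filter] at hn
          exact hn.2
      _ ≤ (NN σ 0 (2 * T) : ℝ) := by
          rw [← Nat.cast_sum]
          exact_mod_cast h1.trans h2
      _ ≤ _ := h3.trans (mul_le_mul_of_nonneg_left (two_mul_rpow (by linarith) (by rw [hB]; linarith)) hC.le)
  rw [div_mul_eq_mul_div, le_div_iff₀ hη]
  linarith

end Pool.Agent.Q30.DH
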