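import Mathlib
import Pool.Agent.Q30.DH.Crit

/-!
# Few clusters give zero density
-/

set_option autoImplicit false

open Complex Set MeasureTheory Filter Topology

namespace Pool.Agent.Q30.DH

variable {A : ℝ → ℝ}

/-- the number of clusters a little to the left -/
lemma cl_shift (hA : AdmE A) (h : CL A) {ε : ℝ} (hε : 0 < ε) : ∃ δ0 : ℝ, 0 < δ0 ∧ ∀ δ η : ℝ, 0 < δ → δ ≤ δ0 →
    0 < η → ∃ C : ℝ, 0 < C ∧ ∃ T0 : ℝ, ∀ T : ℝ, T0 ≤ T → ∀ σ : ℝ, 1 / 2 ≤ σ → σ ≤ 1 →
    (((Finset.range (⌊2 * T⌋₊ + 1)).filter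
      (fun n : ℕ => η * Real.log (2 * T) ≤ NN (σ - δ) n (n + 1))).card : ℝ) ≤ C * T ^ (A σ + ε) := by
  classical
  obtain ⟨δ0, hδ0, hsh⟩ := hA.shift (ε := ε / 2) (by positivity)
  refine ⟨δ0, hδ0, fun δ η hδ hδδ hη => ?_⟩
  obtain ⟨C, hC, T2, H⟩ := h (ε / 2) (by positivity) η hη
  obtain ⟨B, hB⟩ : ∃ B : ℝ, B = A (1 / 2) + ε := ⟨_, rfl⟩
  refine ⟨C * 2 ^ B + 3, by positivity, max T2 2, ?_⟩
  intro T hT σ hσ hσ1
  have hT2' : T2 ≤ T := (le_max_left _ _).trans hT
  have hT2 : 2 ≤ T := (le_max_right _ _).trans hT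
  have hT0 : 0 ≤ T := by linarith
  obtain ⟨s1, s2⟩ := hsh δ σ hδ.le hδδ hσ hσ1
  obtain ⟨b1, b2⟩ := hA.bdd hσ hσ1
  have hTp : 0 ≤ T ^ (A σ + ε) := Real.rpow_nonneg hT0 _
  by_cases hc : 1 / 2 ≤ σ - δ
  · have s3 := s1 hc
    refine (H (2 * T) (by linarith) (σ - δ) hc (by linarith)).trans ?_
    have h2 : (2 * T) ^ (A (σ - δ) + ε / 2) ≤ 2 ^ B * T ^ (A σ + ε) := by
      refine (two_mul_rpow (B := B) hT0 (by rw [hB]; linarith)).trans ?_
      apply mul_le_mul_of_nonneg_left _ (by positivity)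
      exact Real.rpow_le_rpow_of_exponent_le (by linarith) (by linarith)
    have h3 := mul_le_mul_of_nonneg_left h2 hC.le
    nlinarith
  · push Not at hc
    have s3 := s2 hc
    have h1 : (((Finset.range (⌊2 * T⌋₊ + 1)).filter
        (fun n : ℕ => η * Real.log (2 * T) ≤ NN (σ - δ) n (n + 1))).card : ℝ) ≤ 2 * T + 1 := by
      have h4 := Finset.card_filter_le (Finset.range (⌊2 * T⌋₊ + 1))
        (fun n : ℕ => η * Real.log (2 * T) ≤ NN (σ - δ) n (n + 1))
      rw [Finset.card_range] at h4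
      have h5 := Nat.floor_le (show 0 ≤ 2 * T by linarith)
      have h6 : (((Finset.range (⌊2 * T⌋₊ + 1)).filter
        (fun n : ℕ => η * Real.log (2 * T) ≤ NN (σ - δ) n (n + 1))).card : ℝ) ≤ ((⌊2 * T⌋₊ + 1 : ℕ) : ℝ) := by
        exact_mod_cast h4
      push_cast at h6
      linarith
    have h2 : T ≤ T ^ (A σ + ε) := by
      calc T = T ^ (1 : ℝ) := (Real.rpow_one T).symm
        _ ≤ _ := Real.rpow_le_rpow_of_exponent_le (by linarith) (by linarith)
    have h3 : 0 ≤ C * 2 ^ B := by positivity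
    nlinarith

/-- few clusters give zero density -/
theorem zd_of_cl (hA : AdmE A) (h : CL A) : ZD A := by
  classical
  intro ε hε
  obtain ⟨δ0, hδ0, hsh⟩ := cl_shift hA h (ε := ε / 2) (by positivity)
  obtain ⟨δ, hδd⟩ : ∃ δ : ℝ, δ = min δ0 (1 / 4) := ⟨_, rfl⟩
  have hδ : 0 < δ := by rw [hδd]; exact lt_min hδ0 (by norm_num)
  have hδ4 : δ ≤ 1 / 4 := by rw [hδd]; exact min_le_right _ _
  obtain ⟨η, hη, C1, hC1, T1, H1⟩ := Pool.Agent.Results.MP_4467b5_nt.IsolatedZeros.result (ε / 2) δ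
    (by positivity) hδ
  obtain ⟨C3, hC3, H3⟩ := DH31.windows_to_count
  obtain ⟨C, hC, T2, H⟩ := hsh δ (η / 6) hδ (by rw [hδd]; exact min_le_left _ _) (by positivity)
  obtain ⟨T4, H4⟩ := Filter.eventually_atTop.1 (DH31.ev_log 1 (ε / 2) 1 (by positivity))
  refine ⟨C1 + C3 + 3 * C * C3, by positivity, max (max T1 T2) (max T4 3), ?_⟩
  intro T hT σ hσ hσ1
  have hT1' : T1 ≤ T := ((le_max_left _ _).trans (le_max_left _ _)).trans hT
  have hT2' : T2 ≤ T := ((le_max_right _ _).trans (le_max_left _ _)).trans hT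
  have hT4 : T4 ≤ T := ((le_max_left _ _).trans (le_max_right _ _)).trans hT
  have hT3 : 3 ≤ T := ((le_max_right _ _).trans (le_max_right _ _)).trans hT
  have hT0 : 0 < T := by linarith
  obtain ⟨b1, b2⟩ := hA.bdd hσ hσ1
  have hone : ∀ x : ℝ, 0 ≤ x → 1 ≤ T ^ x := fun x hx => Real.one_le_rpow (by linarith) hx
  obtain ⟨A1, hA1⟩ : ∃ A1 : Set ℂ, A1 = {ρ : ℂ | ρ ∈ Pool.Agent.Results.MP_4467b5_nt.IsolatedZeros.zeros σ T ∧
    (Pool.Agent.Results.MP_4467b5_nt.IsolatedZeros.count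
      (Pool.Agent.Results.MP_4467b5_nt.IsolatedZeros.near δ ρ) : ℝ) ≤ η * Real.log T} := ⟨_, rfl⟩
  obtain ⟨A2, hA2⟩ : ∃ A2 : Set ℂ, A2 = {ρ : ℂ | ρ ∈ DH31.zeros σ T ∧
    η * Real.log T < (Pool.Agent.Results.MP_4467b5_nt.IsolatedZeros.count
      (Pool.Agent.Results.MP_4467b5_nt.IsolatedZeros.near δ ρ) : ℝ)} := ⟨_, rfl⟩
  have hf1 : A1.Finite := (DH31.zeros_finite σ T).subset (by rw [hA1]; exact fun x hx => hx.1)
  have hf2 : A2.Finite := (DH31.zeros_finite σ T).subset (by rw [hA2]; exact fun x hx => hx.1)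
  have e1 : DH31.cnt A1 ≤ C1 * T ^ (2 * (1 - σ) + ε / 2) := by
    have := H1 T hT1' σ hσ hσ1
    rw [← hA1] at this
    exact this
  have hsplit : NN σ 0 T ≤ DH31.cnt A1 + DH31.cnt A2 := by
    unfold NN
    rw [DH31.cnt_eq (ZN_fin σ 0 T), DH31.cnt_eq hf1, DH31.cnt_eq hf2]
    refine le_trans ?_ (Finset.sum_union_inter (s₁ := hf1.toFinset) (s₂ := hf2.toFinset)
      (f := fun s => analyticOrderNatAt riemannZeta s)).le
    refine le_trans (Finset.sum_le_sum_of_subset ?_) (Nat.le_add_right _ _)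
    intro s hs
    rw [Set.Finite.mem_toFinset] at hs
    rw [Finset.mem_union, Set.Finite.mem_toFinset, Set.Finite.mem_toFinset, hA1, hA2]
    by_cases hc : (Pool.Agent.Results.MP_4467b5_nt.IsolatedZeros.count
      (Pool.Agent.Results.MP_4467b5_nt.IsolatedZeros.near δ s) : ℝ) ≤ η * Real.log T
    · exact Or.inl ⟨hs, hc⟩
    · exact Or.inr ⟨hs, not_le.1 hc⟩
  obtain ⟨K, hK⟩ : ∃ K : Finset ℕ, K = (Finset.range (⌊2 * T⌋₊ + 1)).filter
      (fun n : ℕ => η / 6 * Real.log (2 * T) ≤ NN (σ - δ) n (n + 1)) := ⟨_, rfl⟩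
  have hKc := H T hT2' σ hσ hσ1
  rw [← hK] at hKc
  have hlog0 : 0 ≤ Real.log T := Real.log_nonneg (by linarith)
  have h3 := H3 T hT3 A2 (by
    rw [hA2]
    rintro s ⟨⟨a1, a2, a3, a4⟩, -⟩
    exact ⟨a1, hσ.trans a2, a3, a4⟩) (K.biUnion fun m => {m - 1, m, m + 1}) (by
    intro ρ hρ him
    rw [hA2] at hρ
    obtain ⟨⟨a1, a2, a3, a4⟩, a5⟩ := hρ
    obtain ⟨n, hn1, hn2⟩ := exists_window (x := ρ.im) a3
    refine ⟨n, ?_, hn1, hn2⟩
    have hn3 : 3 ≤ n := by
      have : (2 : ℝ) < n := by linarith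
      have : 2 < n := by exact_mod_cast this
      omega
    have hre1 : ρ.re ≤ 1 := by
      by_contra hcon
      push Not at hcon
      exact riemannZeta_ne_zero_of_one_le_re hcon.le a1
    have hnf := Pool.Agent.Results.MP_4467b5_nt.IsolatedZeros.near_finite δ ρ
    have hsum := fiber_sum (σ := σ - δ) hnf.toFinset (by
      intro s hs
      rw [Set.Finite.mem_toFinset] at hs
      obtain ⟨b1, b2⟩ := hs
      refine ⟨b1, ?_⟩
      have h5 := (Complex.abs_re_le_norm (s - (1 + ρ.im * I))).trans b2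
      have e5 : (s - (1 + (ρ.im : ℂ) * I)).re = s.re - 1 := by simp
      rw [e5, abs_le] at h5
      linarith [h5.1]) {n - 1, n, n + 1} (by
      intro s hs
      rw [Set.Finite.mem_toFinset] at hs
      obtain ⟨b1, b2⟩ := hs
      have h5 := (Complex.abs_im_le_norm (s - (1 + ρ.im * I))).trans b2
      have e5 : (s - (1 + (ρ.im : ℂ) * I)).im = s.im - ρ.im := by simp
      rw [e5, abs_le] at h5
      have h6 : 1 - ρ.re + δ < 1 := by linarith
      obtain ⟨m, hm1, hm2⟩ := exists_window (x := s.im) (by linarith [h5.1])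
      refine ⟨m, ?_, hm1, hm2⟩
      have c1 : (m : ℝ) < n + 2 := by linarith [h5.2]
      have c2 : (n : ℝ) < m + 2 := by linarith [h5.1]
      have c3 : m < n + 2 := by exact_mod_cast c1
      have c4 : n < m + 2 := by exact_mod_cast c2
      simp only [Finset.mem_insert, Finset.mem_singleton]
      omega)
    have hcount : Pool.Agent.Results.MP_4467b5_nt.IsolatedZeros.count
        (Pool.Agent.Results.MP_4467b5_nt.IsolatedZeros.near δ ρ) =
        ∑ s ∈ hnf.toFinset, analyticOrderNatAt riemannZeta s := DH31.cnt_eq hnf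
    rw [← hcount] at hsum
    have hex : ∃ m ∈ ({n - 1, n, n + 1} : Finset ℕ), η / 3 * Real.log T ≤ NN (σ - δ) m (m + 1) := by
      by_contra hcon
      push Not at hcon
      have h7 : (∑ m ∈ ({n - 1, n, n + 1} : Finset ℕ), (NN (σ - δ) m (m + 1) : ℝ)) ≤
          ∑ m ∈ ({n - 1, n, n + 1} : Finset ℕ), η / 3 * Real.log T :=
        Finset.sum_le_sum fun m hm => (hcon m hm).le
      rw [Finset.sum_const, nsmul_eq_mul] at h7
      have h8 : ((({n - 1, n, n + 1} : Finset ℕ).card : ℕ) : ℝ) ≤ 3 := by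
        exact_mod_cast Finset.card_le_three
      have h9 : ((Pool.Agent.Results.MP_4467b5_nt.IsolatedZeros.count
        (Pool.Agent.Results.MP_4467b5_nt.IsolatedZeros.near δ ρ) : ℕ) : ℝ) ≤
          ∑ m ∈ ({n - 1, n, n + 1} : Finset ℕ), (NN (σ - δ) m (m + 1) : ℝ) := by
        rw [← Nat.cast_sum]
        exact_mod_cast hsum
      have h10 : 0 ≤ η / 3 * Real.log T := by positivity
      nlinarith
    obtain ⟨m, hm1, hm2⟩ := hex
    rw [Finset.mem_biUnion]
    refine ⟨m, ?_, ?_⟩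
    · rw [hK, Finset.mem_filter, Finset.mem_range, Nat.lt_add_one_iff, Nat.le_floor_iff (by linarith)]
      constructor
      · have : m ≤ n + 1 := by
          simp only [Finset.mem_insert, Finset.mem_singleton] at hm1
          omega
        have h11 : (m : ℝ) ≤ n + 1 := by exact_mod_cast this
        linarith
      · refine le_trans ?_ hm2
        have := log_two_mul (show 2 ≤ T by linarith)
        nlinarith
    · simp only [Finset.mem_insert, Finset.mem_singleton] at hm1 ⊢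
      omega)
  have hcard : (((K.biUnion fun m => ({m - 1, m, m + 1} : Finset ℕ)).card : ℕ) : ℝ) ≤ 3 * K.card := by
    have h5 : (K.biUnion fun m => ({m - 1, m, m + 1} : Finset ℕ)).card ≤ K.card * 3 :=
      Finset.card_biUnion_le_card_mul _ _ _ fun m _ => Finset.card_le_three
    have h6 : (((K.biUnion fun m => ({m - 1, m, m + 1} : Finset ℕ)).card : ℕ) : ℝ) ≤ ((K.card * 3 : ℕ) : ℝ) := by
      exact_mod_cast h5
    push_cast at h6
    linarith
  have hlogT : Real.log T ≤ T ^ (ε / 2) := by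
    have := H4 T hT4
    simpa using this
  have e2 : (DH31.cnt A2 : ℝ) ≤ (C3 + 3 * C * C3) * T ^ (A σ + ε) := by
    refine h3.trans ?_
    have h5 : T ^ (A σ + ε / 2) * T ^ (ε / 2) = T ^ (A σ + ε) := by
      rw [← Real.rpow_add hT0]
      congr 1
      ring
    have h6 := hone (A σ + ε) (by linarith)
    calc C3 + (((K.biUnion fun m => ({m - 1, m, m + 1} : Finset ℕ)).card : ℕ) : ℝ) * (C3 * Real.log T)
        ≤ C3 + (3 * (C * T ^ (A σ + ε / 2))) * (C3 * T ^ (ε / 2)) := by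
          apply add_le_add_right
          apply mul_le_mul _ _ (by positivity) (by positivity)
          · exact hcard.trans (by linarith)
          · exact mul_le_mul_of_nonneg_left hlogT hC3.le
      _ = C3 + 3 * C * C3 * (T ^ (A σ + ε / 2) * T ^ (ε / 2)) := by ring
      _ = C3 + 3 * C * C3 * T ^ (A σ + ε) := by rw [h5]
      _ ≤ _ := by nlinarith
  have e3 : T ^ (2 * (1 - σ) + ε / 2) ≤ T ^ (A σ + ε) :=
    Real.rpow_le_rpow_of_exponent_le (by linarith) (by linarith [hA.low σ hσ hσ1])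
  have e4 : (NN σ 0 T : ℝ) ≤ (DH31.cnt A1 : ℝ) + DH31.cnt A2 := by exact_mod_cast hsplit
  nlinarith

end Pool.Agent.Q30.DH
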