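import Mathlib
import Pool.Agent.Q30.DH.Clus
import Pool.Agent.Q30.DH.Zd

/-!
# Few large values give few clusters
-/

set_option autoImplicit false

open Complex Set MeasureTheory Filter Topology Metric
open scoped ENNReal

namespace Pool.Agent.Q30.DH

variable {A : ℝ → ℝ}

/-- bounded overlap -/
lemma overlap {L : Set ℂ} (hL : MeasurableSet L) {R : ℝ} (hR : 0 ≤ R) (K : Finset ℕ) :
    ∑ n ∈ K, volume {s : ℂ | s ∈ L ∧ |s.im - n| ≤ R} ≤ ENNReal.ofReal (2 * R + 1) * volume L := by
  classical
  have hP : ∀ n : ℕ, MeasurableSet {s : ℂ | |s.im - n| ≤ R} := fun n =>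
    measurableSet_le (by fun_prop) measurable_const
  have h1 : ∀ n ∈ K, volume {s : ℂ | s ∈ L ∧ |s.im - n| ≤ R} =
      ∫⁻ s in L, ({s : ℂ | |s.im - n| ≤ R}).indicator (fun _ => (1 : ℝ≥0∞)) s := by
    intro n _
    rw [lintegral_indicator_const (hP n), one_mul, Measure.restrict_apply (hP n), inter_comm]
    rfl
  rw [Finset.sum_congr rfl h1, ← lintegral_finsetSum]
  · calc ∫⁻ s in L, ∑ n ∈ K, ({s : ℂ | |s.im - n| ≤ R}).indicator (fun _ => (1 : ℝ≥0∞)) s
        ≤ ∫⁻ _ in L, ENNReal.ofReal (2 * R + 1) := by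
          apply lintegral_mono
          intro s
          have h2 : ∑ n ∈ K, ({s : ℂ | |s.im - n| ≤ R}).indicator (fun _ => (1 : ℝ≥0∞)) s =
              ((K.filter fun n : ℕ => |s.im - n| ≤ R).card : ℝ≥0∞) := by
            rw [Finset.card_filter, Nat.cast_sum]
            refine Finset.sum_congr rfl fun n _ => ?_
            by_cases h : |s.im - n| ≤ R
            · rw [indicator_of_mem (by exact h), if_pos h, Nat.cast_one]
            · rw [indicator_of_notMem (by exact h), if_neg h, Nat.cast_zero]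
          have h3 : ((K.filter fun n : ℕ => |s.im - n| ≤ R).card : ℝ) ≤ 2 * R + 1 := by
            have hsub : (K.filter fun n : ℕ => |s.im - n| ≤ R) ⊆ Finset.Icc ⌈s.im - R⌉₊ ⌊s.im + R⌋₊ := by
              intro n hn
              rw [Finset.mem_filter, abs_le] at hn
              rw [Finset.mem_Icc, Nat.ceil_le]
              refine ⟨by linarith [hn.2.2], ?_⟩
              apply Nat.le_floor
              linarith [hn.2.1]
            have h4 := Finset.card_le_card hsub
            rw [Nat.card_Icc] at h4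
            have h5 : ((K.filter fun n : ℕ => |s.im - n| ≤ R).card : ℝ) ≤
                ((⌊s.im + R⌋₊ + 1 - ⌈s.im - R⌉₊ : ℕ) : ℝ) := by exact_mod_cast h4
            refine h5.trans ?_
            by_cases h6 : ⌈s.im - R⌉₊ ≤ ⌊s.im + R⌋₊ + 1
            · rw [Nat.cast_sub h6]
              push_cast
              have h7 := Nat.le_ceil (s.im - R)
              by_cases h8 : 0 ≤ s.im + R
              · have h9 := Nat.floor_le h8
                linarith
              · push Not at h8
                rw [Nat.floor_of_nonpos h8.le]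
                have : (0 : ℝ) ≤ ⌈s.im - R⌉₊ := Nat.cast_nonneg _
                push_cast
                linarith
            · rw [Nat.sub_eq_zero_of_le (by omega)]
              push_cast
              linarith
          simp only [h2]
          calc ((K.filter fun n : ℕ => |s.im - n| ≤ R).card : ℝ≥0∞)
              = ENNReal.ofReal ((K.filter fun n : ℕ => |s.im - n| ≤ R).card : ℝ) := by
                rw [ENNReal.ofReal_natCast]
            _ ≤ _ := ENNReal.ofReal_le_ofReal h3
      _ = _ := by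
          rw [lintegral_const, Measure.restrict_apply MeasurableSet.univ, univ_inter]
  · intro n _
    exact measurable_const.indicator (hP n)

/-- slices -/
lemma slices {a b : ℝ} {P : ℂ → Prop} (hP : MeasurableSet {s : ℂ | P s}) {M : ℝ≥0∞}
    (h : ∀ x : ℝ, a ≤ x → x ≤ b → volume {t : ℝ | P ((x : ℂ) + (t : ℂ) * I)} ≤ M) :
    volume {s : ℂ | (a ≤ s.re ∧ s.re ≤ b) ∧ P s} ≤ ENNReal.ofReal (b - a) * M := by
  have hm : MeasurableSet {s : ℂ | (a ≤ s.re ∧ s.re ≤ b) ∧ P s} := by
    have h1 : MeasurableSet {s : ℂ | a ≤ s.re ∧ s.re ≤ b} :=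
      (measurableSet_le measurable_const Complex.measurable_re).inter
        (measurableSet_le Complex.measurable_re measurable_const)
    exact h1.inter hP
  have h1 := Complex.volume_preserving_equiv_real_prod.symm.measure_preimage hm.nullMeasurableSet
  rw [← h1, Measure.volume_eq_prod, Measure.prod_apply (Complex.measurableEquivRealProd.symm.measurable hm)]
  calc ∫⁻ x : ℝ, volume (Prod.mk x ⁻¹' (Complex.measurableEquivRealProd.symm ⁻¹'
        {s : ℂ | (a ≤ s.re ∧ s.re ≤ b) ∧ P s}))
      ≤ ∫⁻ x : ℝ, (Icc a b).indicator (fun _ => M) x := by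
        apply lintegral_mono
        intro x
        by_cases hx : x ∈ Icc a b
        · rw [indicator_of_mem hx]
          refine le_trans (measure_mono ?_) (h x hx.1 hx.2)
          intro t ht
          have e : Complex.measurableEquivRealProd.symm (x, t) = (x : ℂ) + (t : ℂ) * I := by
            rw [Complex.measurableEquivRealProd_symm_apply]
            apply Complex.ext <;> simp
          rw [mem_preimage, mem_preimage, e] at ht
          exact ht.2
        · rw [indicator_of_notMem hx]
          refine le_of_eq ?_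
          have : (Prod.mk x ⁻¹' (Complex.measurableEquivRealProd.symm ⁻¹'
            {s : ℂ | (a ≤ s.re ∧ s.re ≤ b) ∧ P s})) = ∅ := by
            rw [eq_empty_iff_forall_notMem]
            intro t ht
            have e : Complex.measurableEquivRealProd.symm (x, t) = (x : ℂ) + (t : ℂ) * I := by
              rw [Complex.measurableEquivRealProd_symm_apply]
              apply Complex.ext <;> simp
            rw [mem_preimage, mem_preimage, e] at ht
            have h2 := ht.1
            simp only [add_re, ofReal_re, mul_re, I_re, mul_zero, ofReal_im, I_im, mul_one, sub_self,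
              add_zero] at h2
            exact hx h2
          beta_reduce
          rw [this, measure_empty]
    _ = ENNReal.ofReal (b - a) * M := by
        rw [lintegral_indicator_const measurableSet_Icc, Real.volume_Icc, mul_comm]

/-- few large values give few clusters -/
theorem cl_of_lv (hA : AdmE A) (h : LV A) : CL A := by
  classical
  intro ε hε η hη
  obtain ⟨δ0, hδ0, hsh⟩ := hA.shift (ε := ε / 2) (by positivity)
  obtain ⟨δ, hδd⟩ : ∃ δ : ℝ, δ = min (δ0 / 2) (1 / 8) := ⟨_, rfl⟩
  have hδ : 0 < δ := by rw [hδd]; exact lt_min (by positivity) (by norm_num)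
  have hδ8 : δ ≤ 1 / 8 := by rw [hδd]; exact min_le_right _ _
  have hδ00 : 2 * δ ≤ δ0 := by
    have : δ ≤ δ0 / 2 := by rw [hδd]; exact min_le_left _ _
    linarith
  obtain ⟨κ, c, R, T1, hκ, hc, hR, hT1, HC⟩ := cluster_area (δ := δ) (η := η) hδ hδ8 hη
  obtain ⟨C, hC, T2, H⟩ := h (ε / 2) (by positivity) (κ / 2) (by positivity)
  obtain ⟨B, hB⟩ : ∃ B : ℝ, B = A (1 / 2) + ε := ⟨_, rfl⟩
  have hR00 : 0 < R := by linarith
  have hT100 : 0 < T1 := by linarith
  refine ⟨(2 * R + 1) * (C * 2 ^ B) / c + (T1 + 2) + 2, by positivity, max (max T1 T2) (max R 2), ?_⟩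
  intro T hT σ hσ hσ1
  have hT1' : T1 ≤ T := ((le_max_left _ _).trans (le_max_left _ _)).trans hT
  have hT2' : T2 ≤ T := ((le_max_right _ _).trans (le_max_left _ _)).trans hT
  have hTR : R ≤ T := ((le_max_left _ _).trans (le_max_right _ _)).trans hT
  have hT2 : 2 ≤ T := ((le_max_right _ _).trans (le_max_right _ _)).trans hT
  have hT0 : 0 < T := by linarith
  obtain ⟨s1, s2⟩ := hsh (2 * δ) σ (by positivity) hδ00 hσ hσ1
  obtain ⟨b1, b2⟩ := hA.bdd hσ hσ1
  have hTp : 1 ≤ T ^ (A σ + ε) := Real.one_le_rpow (by linarith) (by linarith)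
  obtain ⟨K, hK⟩ : ∃ K : Finset ℕ, K = (Finset.range (⌊T⌋₊ + 1)).filter
      (fun n : ℕ => η * Real.log T ≤ NN σ n (n + 1)) := ⟨_, rfl⟩
  rw [← hK]
  have hKmem : ∀ n ∈ K, (n : ℝ) ≤ T ∧ η * Real.log T ≤ NN σ n (n + 1) := by
    intro n hn
    rw [hK, Finset.mem_filter, Finset.mem_range, Nat.lt_add_one_iff, Nat.le_floor_iff (by linarith)] at hn
    exact hn
  by_cases hcase : 1 / 2 ≤ σ - 2 * δ
  · have s3 := s1 hcase
    obtain ⟨K1, hK1⟩ : ∃ K1 : Finset ℕ, K1 = K.filter (fun n : ℕ => T1 ≤ n) := ⟨_, rfl⟩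
    have hKK : (K.card : ℝ) ≤ K1.card + (T1 + 2) := by
      have h1 : K.card ≤ K1.card + (Finset.range (⌈T1⌉₊)).card := by
        rw [← Finset.card_filter_add_card_filter_not (fun n : ℕ => T1 ≤ n) (s := K), ← hK1]
        apply Nat.add_le_add_left
        apply Finset.card_le_card
        intro n hn
        rw [Finset.mem_filter] at hn
        rw [Finset.mem_range]
        have : (n : ℝ) < T1 := not_le.1 hn.2
        exact_mod_cast lt_of_lt_of_le this (Nat.le_ceil T1)
      rw [Finset.card_range] at h1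
      have h2 : (K.card : ℝ) ≤ K1.card + (⌈T1⌉₊ : ℝ) := by exact_mod_cast h1
      have h3 := Nat.ceil_lt_add_one (show 0 ≤ T1 by linarith)
      linarith
    obtain ⟨P, hPd⟩ : ∃ P : ℂ → Prop, P = fun s : ℂ => (1 ≤ s.im ∧ s.im ≤ 2 * T) ∧
        (2 * T) ^ (κ / 2) ≤ ‖riemannZeta s‖ := ⟨_, rfl⟩
    have hP : MeasurableSet {s : ℂ | P s} := by
      rw [hPd]
      have e1 : MeasurableSet {s : ℂ | 1 ≤ s.im ∧ s.im ≤ 2 * T} :=
        (measurableSet_le measurable_const Complex.measurable_im).inter
          (measurableSet_le Complex.measurable_im measurable_const)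
      exact e1.inter (measurableSet_le measurable_const zeta_meas.norm)
    obtain ⟨X, hX⟩ : ∃ X : ℝ, X = C * (2 ^ B * T ^ (A σ + ε)) := ⟨_, rfl⟩
    have hX0 : 0 ≤ X := by rw [hX]; positivity
    have hslice := slices (a := σ - 2 * δ) (b := 1) hP (M := ENNReal.ofReal X) (by
      intro x hx1 hx2
      have h1 := H (2 * T) (by linarith) x (by linarith) hx2
      refine le_trans (measure_mono ?_) (h1.trans (ENNReal.ofReal_le_ofReal ?_))
      · intro t ht
        rw [hPd] at ht
        have e1 : ((x : ℂ) + (t : ℂ) * I).im = t := by simp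
        obtain ⟨⟨h2, h3⟩, h4⟩ := ht
        rw [e1] at h2 h3
        exact ⟨h2, h3, h4⟩
      · rw [hX]
        apply mul_le_mul_of_nonneg_left _ hC.le
        have h5 : A x ≤ A (σ - 2 * δ) := hA.anti ⟨hcase, by linarith⟩ ⟨by linarith, hx2⟩ hx1
        refine (two_mul_rpow (B := B) hT0.le (by rw [hB]; linarith)).trans ?_
        apply mul_le_mul_of_nonneg_left _ (by positivity)
        exact Real.rpow_le_rpow_of_exponent_le (by linarith) (by linarith))
    obtain ⟨L, hL⟩ : ∃ L : Set ℂ, L = {s : ℂ | (σ - 2 * δ ≤ s.re ∧ s.re ≤ 1) ∧ P s} := ⟨_, rfl⟩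
    have hLm : MeasurableSet L := by
      rw [hL]
      have h1 : MeasurableSet {s : ℂ | σ - 2 * δ ≤ s.re ∧ s.re ≤ 1} :=
        (measurableSet_le measurable_const Complex.measurable_re).inter
          (measurableSet_le Complex.measurable_re measurable_const)
      exact h1.inter hP
    rw [← hL] at hslice
    have hov := overlap hLm (R := R) (by linarith) K1
    have hlow : (K1.card : ℝ≥0∞) * ENNReal.ofReal c ≤ ∑ n ∈ K1, volume {s : ℂ | s ∈ L ∧ |s.im - n| ≤ R} := by
      rw [← nsmul_eq_mul, ← Finset.sum_const]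
      refine Finset.sum_le_sum fun n hn => ?_
      rw [hK1, Finset.mem_filter] at hn
      obtain ⟨k1, k2⟩ := hKmem n hn.1
      refine (HC T hT1' σ hσ hσ1 n hn.2 k1 k2).trans (measure_mono ?_)
      rintro s ⟨a1, a2, a3⟩
      refine ⟨?_, a2⟩
      rw [hL]
      refine ⟨a1, ?_⟩
      rw [hPd]
      have a4 := abs_le.1 a2
      refine ⟨⟨by linarith [hn.2], by linarith⟩, le_trans ?_ a3⟩
      calc (2 * T) ^ (κ / 2) ≤ (T * T) ^ (κ / 2) := Real.rpow_le_rpow (by positivity) (by nlinarith) (by positivity)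
        _ = T ^ κ := by
            rw [Real.mul_rpow hT0.le hT0.le, ← Real.rpow_add hT0]
            congr 1
            ring
    have hfin : (K1.card : ℝ≥0∞) * ENNReal.ofReal c ≤
        ENNReal.ofReal (2 * R + 1) * (ENNReal.ofReal (1 - (σ - 2 * δ)) * ENNReal.ofReal X) :=
      hlow.trans (hov.trans (mul_le_mul_right hslice _))
    rw [← ENNReal.ofReal_natCast, ← ENNReal.ofReal_mul (Nat.cast_nonneg _),
      ← ENNReal.ofReal_mul (by linarith), ← ENNReal.ofReal_mul (by linarith),
      ENNReal.ofReal_le_ofReal_iff (by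
        have : 0 ≤ 1 - (σ - 2 * δ) := by linarith
        positivity)] at hfin
    have h9 : (K1.card : ℝ) * c ≤ (2 * R + 1) * X := by
      refine hfin.trans ?_
      apply mul_le_mul_of_nonneg_left _ (by linarith)
      have : 1 - (σ - 2 * δ) ≤ 1 := by linarith
      nlinarith
    have h10 : (K1.card : ℝ) ≤ (2 * R + 1) * (C * 2 ^ B) / c * T ^ (A σ + ε) := by
      rw [div_mul_eq_mul_div, le_div_iff₀ hc]
      refine h9.trans (le_of_eq ?_)
      rw [hX]
      ring
    have h11 : T1 + 2 ≤ (T1 + 2) * T ^ (A σ + ε) := by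
      have : 0 ≤ T1 + 2 := by linarith
      nlinarith
    nlinarith
  · push Not at hcase
    have s3 := s2 hcase
    have h1 : (K.card : ℝ) ≤ T + 1 := by
      have h4 : K.card ≤ (Finset.range (⌊T⌋₊ + 1)).card := by
        rw [hK]
        exact Finset.card_filter_le _ _
      rw [Finset.card_range] at h4
      have h5 := Nat.floor_le hT0.le
      have h6 : (K.card : ℝ) ≤ ((⌊T⌋₊ + 1 : ℕ) : ℝ) := by exact_mod_cast h4
      push_cast at h6
      linarith
    have h2 : T ≤ T ^ (A σ + ε) := by
      calc T = T ^ (1 : ℝ) := (Real.rpow_one T).symm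
        _ ≤ _ := Real.rpow_le_rpow_of_exponent_le (by linarith) (by linarith)
    have h3 : 0 ≤ (2 * R + 1) * (C * 2 ^ B) / c := by positivity
    have h4 : 0 ≤ T1 + 2 := by linarith
    nlinarith

/-- **Zero density, clusters and large values.** -/
theorem tfae (hA : AdmE A) : [ZD A, CL A, LV A].TFAE := by
  tfae_have 1 → 2 := cl_of_zd hA
  tfae_have 2 → 1 := zd_of_cl hA
  tfae_have 2 → 3 := lv_of_cl hA
  tfae_have 3 → 2 := cl_of_lv hA
  tfae_finish

end Pool.Agent.Q30.DH
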